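import Pool.Agent.Y645.UL.Bas

/-! Shortest sums of signed monomials which vanish at a point. -/

set_option autoImplicit false

namespace Pool.Agent.Y484.UL

open Algebra Pool.Agent.Y645.UL

variable {ι : Type} [Fintype ι] [DecidableEq ι] {L : Type} [Field L]

omit [DecidableEq ι] in
theorem exists_list_poly {R : Type} [CommRing R] (x : ι → R) (B : Finset ι)
    (P : MvPolynomial B ℤ) :
    ∃ l : Lst ι, SuppOn (B : Set ι) l ∧ ev x l = MvPolynomial.aeval (fun b : B => x b) P := by
  classical
  induction P using MvPolynomial.induction_on' with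
  | monomial e a =>
    let e' : ι → ℕ := fun t => if h : t ∈ B then e ⟨t, h⟩ else 0
    refine ⟨List.replicate a.natAbs (decide (0 ≤ a), e'), ?_, ?_⟩
    · intro m hm t ht
      rw [List.eq_of_mem_replicate hm]
      have : t ∉ B := ht
      simp [e', this]
    · have h1 : ∏ t, x t ^ e' t = ∏ b : B, x b ^ e b := by
        rw [← Finset.prod_subset (Finset.subset_univ B), ← Finset.prod_attach]
        · rw [Finset.univ_eq_attach]
          refine Finset.prod_congr rfl fun b _ => ?_
          simp [e']
        · intro t _ ht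
          simp [e', ht]
      rw [MvPolynomial.aeval_monomial, ev, List.map_replicate, List.sum_replicate, mval]
      simp only [h1]
      rw [Finsupp.prod_fintype _ _ (by simp), nsmul_eq_mul, ← mul_assoc]
      congr 1
      rcases le_or_gt 0 a with ha | ha
      · simp only [ha, decide_true, if_true, mul_one, algebraMap_int_eq, eq_intCast]
        have : (a.natAbs : ℤ) = a := Int.natAbs_of_nonneg ha
        rw [← this]; simp
      · have h2 : ¬ (0 ≤ a) := not_le.2 ha
        simp only [h2, decide_false, algebraMap_int_eq, eq_intCast]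
        have : (a.natAbs : ℤ) = -a := by omega
        have h3 : ((a.natAbs : ℤ) : R) = ((-a : ℤ) : R) := by rw [this]
        push_cast at h3
        simp [h3]
  | add P Q hP hQ =>
    obtain ⟨l, hl, hl'⟩ := hP
    obtain ⟨r, hr, hr'⟩ := hQ
    refine ⟨l ++ r, ?_, ?_⟩
    · intro m hm t ht
      rcases List.mem_append.1 hm with h | h
      · exact hl m h t ht
      · exact hr m h t ht
    · rw [ev_append, hl', hr', map_add]

/-- multiplication by `x_j ^ i` -/
def shift (j : ι) (i : ℕ) (l : Lst ι) : Lst ι :=
  l.map (fun m => (m.1, m.2 + Pi.single j i))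

theorem mval_shift {R : Type} [CommRing R] (x : ι → R) (j : ι) (i : ℕ) (m : Bool × (ι → ℕ)) :
    mval x (m.1, m.2 + Pi.single j i) = mval x m * x j ^ i := by
  simp only [mval, Pi.add_apply, pow_add, Finset.prod_mul_distrib]
  have : ∏ t, x t ^ (Pi.single j i : ι → ℕ) t = x j ^ i := by
    rw [Finset.prod_eq_single j]
    · simp
    · intro b _ hb
      simp [hb]
    · simp
  rw [this]
  ring

theorem ev_shift {R : Type} [CommRing R] (x : ι → R) (j : ι) (i : ℕ)
    (l : Lst ι) : ev x (shift j i l) = ev x l * x j ^ i := by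
  rw [ev, shift, List.map_map, ev]
  induction l with
  | nil => simp
  | cons m l ih =>
    rw [List.map_cons, List.map_cons, List.sum_cons, List.sum_cons, add_mul, ih]
    congr 1
    exact mval_shift x j i m

theorem Ew_shift {R : Type} [CommRing R] (x : ι → R) (j : ι) (i : ℕ) (S : Set ι) (hj : j ∉ S)
    (l : Lst ι) (hl : SuppOn S l) :
    Ew x (Pi.single j 1) (shift j i l) = (i : R) * (ev x l * x j ^ i) := by
  induction l with
  | nil => simp [Ew, shift, ev]
  | cons m l ih =>
    have h1 := ih (fun m' hm' => hl m' (List.mem_cons_of_mem _ hm'))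
    have h2 : m.2 j = 0 := hl m (List.mem_cons_self) j hj
    have h3 : Ew x (Pi.single j 1) (shift j i (m :: l)) =
        mval x (m.1, m.2 + Pi.single j i) *
          (∑ t, (((m.2 + Pi.single j i : ι → ℕ) t : ℕ) : R) * (Pi.single j 1 : ι → R) t) +
        Ew x (Pi.single j 1) (shift j i l) := by
      simp [Ew, shift]
    rw [h3, h1, mval_shift]
    have h4 : ∑ t, (((m.2 + Pi.single j i : ι → ℕ) t : ℕ) : R) * (Pi.single j 1 : ι → R) t =
        (i : R) := by
      rw [Finset.sum_eq_single j]
      · simp [h2]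
      · intro b _ hb
        simp [hb]
      · simp
    rw [h4]
    have h5 : ev x (m :: l) = mval x m + ev x l := by simp [ev]
    rw [h5]
    ring

omit [Fintype ι] in
theorem suppOn_shift {S : Set ι} {j : ι} {i : ℕ} {l : Lst ι} (hl : SuppOn S l) :
    SuppOn (insert j S) (shift j i l) := by
  intro m hm t ht
  rw [shift, List.mem_map] at hm
  obtain ⟨m', hm', rfl⟩ := hm
  have h1 : t ≠ j := fun h => ht (Or.inl h)
  have h2 : t ∉ S := fun h => ht (Or.inr h)
  simp [hl m' hm' t h2, h1]

/-- an algebraic coordinate satisfies a separable equation with integral coefficients -/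
theorem exists_list [CharZero L] (x : ι → L) (B : Finset ι) (j : ι) (hj : j ∉ B) (hx : x j ≠ 0)
    (h : IsAlgebraic (adjoin ℤ (x '' (B : Set ι))) (x j)) :
    ∃ l : Lst ι, SuppOn (insert j (B : Set ι)) l ∧ ev x l = 0 ∧ Ew x (Pi.single j 1) l ≠ 0 := by
  let R := adjoin ℤ (x '' (B : Set ι))
  -- a relation of the least degree
  let T : Set ℕ := {n | ∃ p : Polynomial R, p ≠ 0 ∧ Polynomial.aeval (x j) p = 0 ∧ p.natDegree = n}
  have hT : T.Nonempty := by
    obtain ⟨p, hp, hp'⟩ := h
    exact ⟨_, p, hp, hp', rfl⟩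
  obtain ⟨p, hp, hp', hpn⟩ : sInf T ∈ T := Nat.sInf_mem hT
  have hmin : ∀ q : Polynomial R, q ≠ 0 → Polynomial.aeval (x j) q = 0 →
      p.natDegree ≤ q.natDegree := by
    intro q hq hq'
    rw [hpn]
    exact Nat.sInf_le ⟨q, hq, hq', rfl⟩
  have hinj : Function.Injective (algebraMap R L) := Subtype.val_injective
  have hdeg : p.natDegree ≠ 0 := by
    intro h0
    rw [Polynomial.eq_C_of_natDegree_eq_zero h0, Polynomial.aeval_C] at hp'
    have h1 : p.coeff 0 = 0 := hinj (by rw [hp', map_zero])
    rw [Polynomial.eq_C_of_natDegree_eq_zero h0, h1, Polynomial.C_0] at hp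
    exact hp rfl
  have hder : Polynomial.aeval (x j) (Polynomial.derivative p) ≠ 0 := by
    intro h0
    by_cases h1 : Polynomial.derivative p = 0
    · have := Polynomial.natDegree_eq_zero_of_derivative_eq_zero h1
      exact hdeg this
    · have h2 := hmin _ h1 h0
      have h3 := Polynomial.natDegree_derivative_lt hdeg
      omega
  -- lists for the coefficients
  have hc : ∀ c : R, ∃ l : Lst ι, SuppOn (B : Set ι) l ∧ ev x l = (c : L) := by
    intro c
    have h1 : (c : L) ∈ adjoin ℤ (Set.range (fun b : B => x b)) := by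
      have h2 : Set.range (fun b : B => x b) = x '' (B : Set ι) := by
        ext y
        simp
      rw [h2]
      exact c.2
    rw [adjoin_range_eq_range_aeval] at h1
    obtain ⟨P, hP⟩ := h1
    obtain ⟨l, hl, hl'⟩ := exists_list_poly x B P
    exact ⟨l, hl, by rw [hl']; exact hP⟩
  choose lc hlc hlc' using hc
  have hsum : ∀ n : ℕ, ∃ l : Lst ι, SuppOn (insert j (B : Set ι)) l ∧
      ev x l = ∑ i ∈ Finset.range n, (p.coeff i : L) * x j ^ i ∧
      Ew x (Pi.single j 1) l = ∑ i ∈ Finset.range n, (i : L) * ((p.coeff i : L) * x j ^ i) := by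
    intro n
    induction n with
    | zero => exact ⟨[], by simp [SuppOn], by simp [ev], by simp [Ew]⟩
    | succ n ih =>
      obtain ⟨l, h1, h2, h3⟩ := ih
      refine ⟨l ++ shift j n (lc (p.coeff n)), ?_, ?_, ?_⟩
      · intro m hm t ht
        rcases List.mem_append.1 hm with h | h
        · exact h1 m h t ht
        · exact suppOn_shift (hlc _) m h t ht
      · rw [ev_append, ev_shift, hlc', h2, Finset.sum_range_succ]
      · rw [Ew_append, h3, Ew_shift x j n (B : Set ι) (by exact_mod_cast hj) _ (hlc _), hlc',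
          Finset.sum_range_succ]
  obtain ⟨l, h1, h2, h3⟩ := hsum (p.natDegree + 1)
  have hev : Polynomial.aeval (x j) p = ∑ i ∈ Finset.range (p.natDegree + 1),
      (p.coeff i : L) * x j ^ i := by
    rw [Polynomial.aeval_eq_sum_range]
    rfl
  refine ⟨l, h1, by rw [h2, ← hev, hp'], ?_⟩
  rw [h3]
  have h4 : ∑ i ∈ Finset.range (p.natDegree + 1), (i : L) * ((p.coeff i : L) * x j ^ i) =
      x j * Polynomial.aeval (x j) (Polynomial.derivative p) := by
    rw [Polynomial.aeval_eq_sum_range' (Polynomial.natDegree_derivative_lt hdeg),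
      Finset.sum_range_succ', Finset.mul_sum]
    rw [Nat.cast_zero, zero_mul, add_zero]
    refine Finset.sum_congr rfl fun i _ => ?_
    rw [Polynomial.coeff_derivative, Algebra.smul_def]
    have h5 : algebraMap R L (p.coeff (i + 1) * ((i : R) + 1)) =
        (p.coeff (i + 1) : L) * ((i : L) + 1) := by
      rw [map_mul, map_add, map_natCast, map_one]
      rfl
    rw [h5, pow_succ]
    push_cast
    ring
  rw [h4]
  exact mul_ne_zero hx hder

end Pool.Agent.Y484.UL

namespace Pool.Agent.Y484.UL

open Pool.Agent.Y645.UL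

/-- a shortest sum of signed monomials which vanishes at `x` -/
theorem t_LST : S_LST := by
  intro ι L _ _ _ x B j hj hx h
  classical
  obtain ⟨l₀, h1, h2, h3⟩ := exists_list x B j hj (hx j) h
  obtain ⟨T, hT⟩ : ∃ T : Set ℕ, T = {n | ∃ l : Lst ι, SuppOn (insert j (B : Set ι)) l ∧
      ev x l = 0 ∧ Ew x (Pi.single j 1) l ≠ 0 ∧ l.length = n} := ⟨_, rfl⟩
  have hTn : T.Nonempty := by
    rw [hT]
    exact ⟨_, l₀, h1, h2, h3, rfl⟩
  have hmem := Nat.sInf_mem hTn
  rw [hT] at hmem
  obtain ⟨l, g1, g2, g3, g4⟩ := hmem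
  rw [← hT] at g4
  have hmin : ∀ l' : Lst ι, SuppOn (insert j (B : Set ι)) l' → ev x l' = 0 →
      Ew x (Pi.single j 1) l' ≠ 0 → l.length ≤ l'.length := by
    intro l' k1 k2 k3
    rw [g4]
    refine Nat.sInf_le ?_
    rw [hT]
    exact ⟨l', k1, k2, k3, rfl⟩
  refine ⟨l, g1, g2, g3, ?_, ?_⟩
  · rcases l with _ | ⟨m, _ | ⟨m', l'⟩⟩
    · exact absurd (by simp [Ew]) g3
    · exfalso
      have : ev x [m] = mval x m := by simp [ev]
      rw [this] at g2
      exact mval_ne hx m g2
    · simp
  · intro t ht ht' h0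
    have hsplit : l.take t ++ l.drop t = l := List.take_append_drop t l
    have k1 : ev x (l.drop t) = 0 := by
      have := ev_append x (l.take t) (l.drop t)
      rw [hsplit, g2, h0, zero_add] at this
      exact this.symm
    have k2 : Ew x (Pi.single j 1) (l.take t) + Ew x (Pi.single j 1) (l.drop t) ≠ 0 := by
      rw [← Ew_append, hsplit]
      exact g3
    by_cases k3 : Ew x (Pi.single j 1) (l.take t) = 0
    · rw [k3, zero_add] at k2
      have := hmin (l.drop t) (fun m hm => g1 m (List.mem_of_mem_drop hm)) k1 k2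
      rw [List.length_drop] at this
      omega
    · have := hmin (l.take t) (fun m hm => g1 m (List.mem_of_mem_take hm)) h0 k3
      rw [List.length_take] at this
      omega

end Pool.Agent.Y484.UL
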